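import Pool.Agent.Q99.SML6.Rec
import Pool.Agent.Q99.SML5.Main
import Pool.Agent.Q99.SML3.Main

/-!
# Polynomial relations between Jones polynomials of powers of braids
-/

set_option autoImplicit false

open Finset LaurentPolynomial Pool.Agent.H891R2.Jones Pool.Agent.W639.RB

namespace Q99.SML6

open Q99.SML Q99.SML2 Q99.SML3 Q99.SML5

/-! ### substitutions -/

/-- the unit `A^e` -/
noncomputable def unitT (e : ℤ) : (ℤ[T;T⁻¹])ˣ where
  val := T e
  inv := T (-e)
  val_inv := by rw [← T_add, add_neg_cancel, T_zero]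
  inv_val := by rw [← T_add, neg_add_cancel, T_zero]

/-- the substitution `F ↦ F(A^e)` -/
noncomputable def adams (e : ℤ) : ℤ[T;T⁻¹] →+* ℤ[T;T⁻¹] := spec (unitT e)

theorem unitT_zpow (e n : ℤ) : ((unitT e ^ n : (ℤ[T;T⁻¹])ˣ) : ℤ[T;T⁻¹]) = T (e * n) := by
  rcases n with n | n
  · show ((unitT e ^ ((n : ℕ) : ℤ) : (ℤ[T;T⁻¹])ˣ) : ℤ[T;T⁻¹]) = T (e * (n : ℤ))
    rw [zpow_natCast, Units.val_pow_eq_pow_val]
    show (T e : ℤ[T;T⁻¹]) ^ n = _
    rw [T_pow]
    congr 1
    ring
  · rw [zpow_negSucc, ← inv_pow, Units.val_pow_eq_pow_val]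
    show (T (-e) : ℤ[T;T⁻¹]) ^ (n + 1) = _
    rw [T_pow]
    congr 1
    rw [Int.negSucc_eq]
    push_cast
    ring

theorem adams_T (e n : ℤ) : adams e (T n) = T (e * n) := by
  unfold adams
  rw [spec_T, unitT_zpow]

theorem spec_adams {K : Type*} [CommRing K] (a : Kˣ) (e : ℤ) (F : ℤ[T;T⁻¹]) :
    spec a (adams e F) = spec (a ^ e) F := by
  induction F using LaurentPolynomial.induction_on' with
  | add F G hF hG => rw [map_add, map_add, map_add, hF, hG]
  | C_mul_T n c =>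
    have h1 : (C c : ℤ[T;T⁻¹]) = (c : ℤ[T;T⁻¹]) := by simp
    rw [h1, map_mul, map_mul, map_mul, map_intCast, map_intCast, map_intCast, adams_T, spec_T,
      spec_T, zpow_mul]

theorem toZMod_zpow {p : ℕ} [Fact p.Prime] (a : ℤ_[p]ˣ)
    (hmod : PadicInt.toZMod (a : ℤ_[p]) = 1) (n : ℤ) :
    PadicInt.toZMod ((a ^ n : ℤ_[p]ˣ) : ℤ_[p]) = 1 := by
  have ha1 : Units.map ((PadicInt.toZMod (p := p) : ℤ_[p] →+* ZMod p) : ℤ_[p] →* ZMod p) a
      = 1 := by
    apply Units.ext
    exact hmod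
  have h7 := congrArg (fun u : (ZMod p)ˣ => (u : ZMod p)) (map_zpow (Units.map
    ((PadicInt.toZMod (p := p) : ℤ_[p] →+* ZMod p) : ℤ_[p] →* ZMod p)) a n)
  rw [ha1, one_zpow] at h7
  exact h7

/-! ### values of members of a family -/

theorem member_rec {m k : ℕ} (hm : 0 < m) {p : ℕ} [Fact p.Prime] (hp : 2 < p) (a : ℤ_[p]ˣ)
    (hmod : PadicInt.toZMod (a : ℤ_[p]) = 1) (O : Outer m) (w : Fin k → Word)
    (u : Fin k → VWord) (P : ℕ) (n : Fin k → ℤ) (j : Fin k) (hP : wperm m (w j) ^ P = 1)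
    (s : ℤ) : RecD (m.choose (m / 2))
      (fun t : ℤ => spec a (familyV O w u (Function.update n j (s + P * t))).close.fPoly) := by
  obtain ⟨O', x, hx⟩ := familyV_update m k w u n j O
  obtain ⟨e, l, v, he, hval⟩ := Q99.SML3.value hm a O' (w j) x P hP s
  obtain ⟨B, R, hB, h1, h2, h3⟩ := ann hp a hmod (w j) P hP e he
  refine ⟨R, h1, h2, ?_⟩
  have h4 := Rec.of_end _ B hB R h3 l v
  have h5 : (fun t : ℤ => spec a (familyV O w u (Function.update n j (s + P * t))).close.fPoly) =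
      fun t : ℤ => l (((sU (eta a ^ e) * WUm a (w j) ^ P) ^ t :
        (Module.End ℤ_[p] (Mt m → ℤ_[p]))ˣ).1 v) := by
    funext t
    rw [hx, hval]
  rw [h5]
  exact h4

/-- the order of a polynomial relation: every monomial contributes the product of the orders of
its factors -/
noncomputable def order {r : ℕ} (Φ : MvPolynomial (Fin r) ℤ[T;T⁻¹]) (C : Fin r → ℕ) : ℕ :=
  ∑ α ∈ Φ.support, ∏ i, C i ^ α i

theorem poly_rec {r : ℕ} {p : ℕ} [Fact p.Prime] (a : ℤ_[p]ˣ) (C : Fin r → ℕ)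
    (Φ : MvPolynomial (Fin r) ℤ[T;T⁻¹]) (x : Fin r → ℤ → ℤ[T;T⁻¹])
    (hx : ∀ i, RecD (C i) (fun t => spec a (x i t))) :
    RecD (order Φ C) (fun t : ℤ => spec a (MvPolynomial.eval (fun i => x i t) Φ)) := by
  classical
  have h1 : (fun t : ℤ => spec a (MvPolynomial.eval (fun i => x i t) Φ)) =
      ∑ α ∈ Φ.support, spec a (MvPolynomial.coeff α Φ) •
        ∏ i, (fun t => spec a (x i t)) ^ (α i) := by
    funext t
    rw [MvPolynomial.eval_eq', map_sum, Finset.sum_apply]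
    refine Finset.sum_congr rfl fun α _ => ?_
    rw [map_mul, map_prod, Pi.smul_apply, smul_eq_mul, Finset.prod_apply]
    congr 1
    refine Finset.prod_congr rfl fun i _ => ?_
    rw [map_pow]
    rfl
  rw [h1]
  exact RecD.sum _ _ _ fun α _ => (RecD.prod _ _ _ fun i _ => (hx i).pow _).smul _

/-- the value of the relation at `q` -/
noncomputable def rel {r k : ℕ} {m : Fin r → ℕ} (O : ∀ i, Outer (m i))
    (w : Fin r → Fin k → Word) (u : Fin r → Fin k → VWord) (e : Fin r → ℤ)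
    (Φ : MvPolynomial (Fin r) ℤ[T;T⁻¹]) (n : Fin k → ℤ) : ℤ[T;T⁻¹] :=
  MvPolynomial.eval (fun i => adams (e i) (familyV (O i) (w i) (u i) n).close.fPoly) Φ

/-- membership along a line -/
theorem line_rel {r k d : ℕ} {m : Fin r → ℕ} (hm : ∀ i, 0 < m i) (O : ∀ i, Outer (m i))
    (w : Fin r → Fin k → Word) (u : Fin r → Fin k → VWord) (e : Fin r → ℤ)
    (Φ : MvPolynomial (Fin r) ℤ[T;T⁻¹]) (v : Fin d → ℤ[T;T⁻¹])
    (P : ℕ) (n : Fin k → ℤ) (j : Fin k)
    (hP : ∀ i, wperm (m i) (w i j) ^ P = 1) (s : ℤ) (Z : Finset ℤ)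
    (hZ : ∀ z ∈ Z, IsComb v (rel O w u e Φ (Function.update n j (s + P * z))))
    (hc : (d + 1) * order Φ (fun i => (m i).choose (m i / 2)) ≤ Z.card) (z : ℤ) :
    IsComb v (rel O w u e Φ (Function.update n j (s + P * z))) := by
  classical
  set N := order Φ (fun i => (m i).choose (m i / 2)) with hN
  obtain ⟨p, hpr, hp⟩ := Nat.exists_infinite_primes ((d + 1) * N + 3)
  have : Fact (Nat.Prime p) := ⟨hp⟩
  obtain ⟨a, lam, ha, hlam⟩ := exists_functional p v
  have hrec : RecD ((d + 1) * N) (∑ y, lam y • (fun t : ℤ =>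
      spec (a y) (rel O w u e Φ (Function.update n j (s + P * t))))) := by
    have h1 := RecD.sum (Finset.univ : Finset (Fin (d + 1))) (fun _ => N)
      (fun y => lam y • (fun t : ℤ =>
        spec (a y) (rel O w u e Φ (Function.update n j (s + P * t))))) (fun y _ => by
      refine RecD.smul ?_ _
      refine poly_rec (a y) _ Φ (fun i t => adams (e i)
        (familyV (O i) (w i) (u i) (Function.update n j (s + P * t))).close.fPoly) fun i => ?_
      simp only [spec_adams]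
      exact member_rec (hm i) (by omega) (a y ^ e i) (toZMod_zpow (a y) (ha y) (e i)) (O i) (w i)
        (u i) P n j (hP i) s)
    rwa [Finset.sum_const, Finset.card_univ, Fintype.card_fin, smul_eq_mul] at h1
  have key : ∀ t : ℤ, (∑ y, lam y • (fun t : ℤ =>
      spec (a y) (rel O w u e Φ (Function.update n j (s + P * t))))) t = 0 ↔
      IsComb v (rel O w u e Φ (Function.update n j (s + P * t))) := by
    intro t
    rw [← hlam, Finset.sum_apply]
    rfl
  rw [← key]
  exact hrec.eq_zero (by omega) Z (fun t ht => (key t).2 (hZ t ht)) hc z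

/-- the zero-one law -/
theorem count_rel {r k d : ℕ} {m : Fin r → ℕ} (hm : ∀ i, 0 < m i) (O : ∀ i, Outer (m i))
    (w : Fin r → Fin k → Word) (u : Fin r → Fin k → VWord) (P : ℕ)
    (hP : ∀ i j, wperm (m i) (w i j) ^ P = 1) (s : Fin k → ℤ) (e : Fin r → ℤ)
    (Φ : MvPolynomial (Fin r) ℤ[T;T⁻¹]) (v : Fin d → ℤ[T;T⁻¹]) :
    (∀ q : Fin k → ℤ, IsComb v (rel O w u e Φ (s + (P : ℤ) • q))) ∨
      ∀ A : Fin k → Finset ℤ, {q : Fin k → ℤ | (∀ j, q j ∈ A j) ∧
          IsComb v (rel O w u e Φ (s + (P : ℤ) • q))}.ncard ≤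
        ((d + 1) * order Φ (fun i => (m i).choose (m i / 2)) - 1) *
          ∑ j, ∏ l ∈ univ.erase j, #(A l) := by
  classical
  by_cases hall : ∀ q : Fin k → ℤ, IsComb v (rel O w u e Φ (s + (P : ℤ) • q))
  · exact Or.inl hall
  right
  intro A
  have hf : {q : Fin k → ℤ | (∀ j, q j ∈ A j) ∧
      IsComb v (rel O w u e Φ (s + (P : ℤ) • q))}.Finite := by
    apply (Fintype.piFinset A).finite_toSet.subset
    intro n hn
    rw [Finset.mem_coe, Fintype.mem_piFinset]
    exact hn.1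
  rw [Set.ncard_eq_toFinset_card _ hf, ← faces_eq]
  have h := box_count 1 one_pos ((d + 1) * order Φ (fun i => (m i).choose (m i / 2)) - 1) k
    (fun q => IsComb v (rel O w u e Φ (s + (P : ℤ) • q))) ?_ A hf.toFinset ?_
  · rwa [mul_one] at h
  · intro q j s0 Z hZ hc z
    have hupd : ∀ y : ℤ, s + (P : ℤ) • Function.update q j (s0 + ((1 : ℕ) : ℤ) * y) =
        Function.update (s + (P : ℤ) • q) j ((s j + P * s0) + P * y) := by
      intro y
      funext l
      by_cases hl : l = j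
      · subst hl
        rw [Pi.add_apply, Pi.smul_apply, Function.update_self, Function.update_self, smul_eq_mul,
          Nat.cast_one]
        ring
      · rw [Pi.add_apply, Pi.smul_apply, Function.update_of_ne hl, Function.update_of_ne hl,
          Pi.add_apply, Pi.smul_apply]
    have h1 := line_rel hm O w u e Φ v P (s + (P : ℤ) • q) j (fun i => hP i j) (s j + P * s0) Z
      (fun y hy => by
        rw [← hupd]
        exact hZ y hy) (by omega) z
    rw [← hupd] at h1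
    exact h1
  · intro q hq
    rw [Set.Finite.mem_toFinset] at hq
    push Not at hall
    obtain ⟨q0, hq0⟩ := hall
    refine ⟨hq.1, hq.2, q0 - q, ?_⟩
    have h3 : q + ((1 : ℕ) : ℤ) • (q0 - q) = q0 := by
      rw [Nat.cast_one, one_smul]; abel
    rw [h3]
    exact hq0

/-! ### units -/

/-- a Laurent polynomial with `F(A) F(A⁻¹) = 1` is a unit `± A^n` -/
theorem expand (F : ℤ[T;T⁻¹]) : ∃ (s : Finset ℤ) (c : ℤ → ℤ),
    F = ∑ n ∈ s, c n • (T n : ℤ[T;T⁻¹]) ∧ ∀ n ∈ s, c n ≠ 0 := by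
  classical
  refine ⟨F.coeff.support, fun n => F.coeff n, ?_, fun n hn => Finsupp.mem_support_iff.1 hn⟩
  apply LaurentPolynomial.ext
  intro e
  rw [AddMonoidAlgebra.coeff_sum, Finsupp.finsetSum_apply]
  have h1 : ∑ n ∈ F.coeff.support, (F.coeff n • (T n : ℤ[T;T⁻¹])).coeff e =
      ∑ n ∈ F.coeff.support, (if n = e then F.coeff e else 0) := by
    refine Finset.sum_congr rfl fun n _ => ?_
    rw [AddMonoidAlgebra.coeff_smul, Finsupp.smul_apply, T_apply]
    split_ifs with h2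
    · rw [h2, smul_eq_mul, mul_one]
    · rw [smul_zero]
  rw [h1, Finset.sum_ite_eq']
  split_ifs with h2
  · rfl
  · rw [Finsupp.mem_support_iff, not_not] at h2
    exact h2

theorem unit_of_mul (F : ℤ[T;T⁻¹]) (h : F * adams (-1) F = 1) : ∃ n : ℤ, F = T n ∨ F = -T n := by
  classical
  obtain ⟨s, c, hF, hc⟩ := expand F
  have hG : adams (-1) F = ∑ n ∈ s, c n • (T (-n) : ℤ[T;T⁻¹]) := by
    rw [hF, map_sum]
    refine Finset.sum_congr rfl fun n _ => ?_
    rw [map_zsmul, adams_T, neg_one_mul]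
  have hprod : F * adams (-1) F =
      ∑ n ∈ s, ∑ k ∈ s, (c n * c k) • (T (n - k) : ℤ[T;T⁻¹]) := by
    rw [hG, hF, Finset.sum_mul_sum]
    refine Finset.sum_congr rfl fun n _ => Finset.sum_congr rfl fun k _ => ?_
    rw [smul_mul_smul_comm, ← T_add, sub_eq_add_neg]
  have hcoef : ∑ n ∈ s, c n * c n = 1 := by
    have h0 := hprod.symm.trans h
    have h1 : (∑ n ∈ s, ∑ k ∈ s, (c n * c k) • (T (n - k) : ℤ[T;T⁻¹])).coeff 0 =
        (1 : ℤ[T;T⁻¹]).coeff 0 := by rw [h0]
    have h2 : (1 : ℤ[T;T⁻¹]).coeff 0 = 1 := by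
      rw [← T_zero, T_apply, if_pos rfl]
    rw [h2, AddMonoidAlgebra.coeff_sum, Finsupp.finsetSum_apply] at h1
    rw [← h1]
    refine Finset.sum_congr rfl fun n hn => ?_
    rw [AddMonoidAlgebra.coeff_sum, Finsupp.finsetSum_apply, Finset.sum_eq_single n]
    · rw [AddMonoidAlgebra.coeff_smul, Finsupp.smul_apply, T_apply, if_pos (sub_self n),
        smul_eq_mul, mul_one]
    · intro k _ hk
      rw [AddMonoidAlgebra.coeff_smul, Finsupp.smul_apply, T_apply, if_neg, smul_zero]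
      intro h3
      exact hk (by omega)
    · intro h3; exact absurd hn h3
  have hge : ∀ n ∈ s, 1 ≤ c n * c n := by
    intro n hn
    have := mul_self_pos.2 (hc n hn)
    omega
  have hcard : #s ≤ 1 := by
    have h1 := Finset.card_nsmul_le_sum s (fun n => c n * c n) 1 hge
    rw [hcoef, nsmul_eq_mul, mul_one] at h1
    exact_mod_cast h1
  have hne : s.Nonempty := by
    rw [Finset.nonempty_iff_ne_empty]
    intro h0
    rw [h0, Finset.sum_empty] at hcoef
    exact zero_ne_one hcoef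
  obtain ⟨n0, hn0⟩ : ∃ n0, s = {n0} := by
    rw [← Finset.card_eq_one]
    have := Finset.card_pos.2 hne
    omega
  rw [hn0, Finset.sum_singleton] at hcoef hF
  refine ⟨n0, ?_⟩
  rcases Int.isUnit_iff.1 (IsUnit.of_mul_eq_one _ hcoef) with h1 | h1
  · left; rw [hF, h1, one_smul]
  · right; rw [hF, h1, neg_smul, one_smul]

theorem mul_of_unit (n : ℤ) (F : ℤ[T;T⁻¹]) (h : F = T n ∨ F = -T n) : F * adams (-1) F = 1 := by
  have h1 : (T n : ℤ[T;T⁻¹]) * adams (-1) (T n) = 1 := by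
    rw [adams_T, ← T_add, neg_one_mul, add_neg_cancel, T_zero]
  rcases h with rfl | rfl
  · exact h1
  · rw [map_neg, neg_mul_neg, h1]

end Q99.SML6
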