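import Pool.Agent.Q99.SML2.Seq

/-!
# Sequences given by interpolation series: sums and products
-/

set_option autoImplicit false

open Polynomial Finset TensorProduct

namespace Q99.SML6

open Q99.SML Q99.SML2

variable {p : ℕ} [hp : Fact p.Prime]

/-- `u` is given on every half line by an interpolation series annihilated by `P` -/
def Rec (P : ℤ_[p][X]) (u : ℤ → ℤ_[p]) : Prop :=
  ∀ s : ℤ, ∃ b : ℕ → ℤ_[p], Ann P b ∧ ∀ t : ℕ, u (s + t) = ser b t

theorem ser_add (b b' : ℕ → ℤ_[p]) (t : ℕ) : ser (b + b') t = ser b t + ser b' t := by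
  unfold ser
  rw [← Finset.sum_add_distrib]
  refine Finset.sum_congr rfl fun j _ => ?_
  rw [Pi.add_apply]; ring

theorem ser_smul (c : ℤ_[p]) (b : ℕ → ℤ_[p]) (t : ℕ) : ser (c • b) t = c * ser b t := by
  unfold ser
  rw [Finset.mul_sum]
  refine Finset.sum_congr rfl fun j _ => ?_
  rw [Pi.smul_apply, smul_eq_mul]; ring

theorem Rec.add {P P' : ℤ_[p][X]} {u u' : ℤ → ℤ_[p]} (h : Rec P u) (h' : Rec P' u') :
    Rec (P * P') (u + u') := by
  intro s
  obtain ⟨b, h1, h2⟩ := h s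
  obtain ⟨b', h1', h2'⟩ := h' s
  refine ⟨b + b', h1.add h1', fun t => ?_⟩
  rw [Pi.add_apply, h2, h2', ser_add]

theorem Rec.smul {P : ℤ_[p][X]} {u : ℤ → ℤ_[p]} (h : Rec P u) (c : ℤ_[p]) : Rec P (c • u) := by
  intro s
  obtain ⟨b, h1, h2⟩ := h s
  refine ⟨c • b, h1.smul c, fun t => ?_⟩
  rw [Pi.smul_apply, smul_eq_mul, h2, ser_smul]

theorem Rec.const (c : ℤ_[p]) : Rec X (fun _ : ℤ => c) := by
  intro s
  refine ⟨fun k => if k = 0 then c else 0, ?_, fun t => ?_⟩
  · intro Q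
    induction Q using Polynomial.induction_on' with
    | add P Q hP hQ => rw [mul_add, map_add, hP, hQ, add_zero]
    | monomial n a =>
      rw [X_mul_monomial, phi_monomial]
      simp
  · unfold ser
    rw [Finset.sum_eq_single 0]
    · simp
    · intro j _ hj
      simp [hj]
    · intro h
      simp at h

theorem Rec.of_end {V : Type*} [AddCommGroup V] [Module ℤ_[p] V] (N : (Module.End ℤ_[p] V)ˣ)
    (B : Module.End ℤ_[p] V) (hN : N.1 = 1 + (p : ℤ_[p]) • B) (P : ℤ_[p][X])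
    (hP : aeval B P = 0) (l : V →ₗ[ℤ_[p]] ℤ_[p]) (v : V) :
    Rec P (fun t : ℤ => l ((N ^ t : (Module.End ℤ_[p] V)ˣ).1 v)) := by
  intro s
  refine ⟨fun k => (l ∘ₗ (N ^ s : (Module.End ℤ_[p] V)ˣ).1) ((B ^ k) v), end_ann B _ v P hP,
    fun t => ?_⟩
  show l ((N ^ (s + (t : ℤ)) : (Module.End ℤ_[p] V)ˣ).1 v) = _
  rw [_root_.zpow_add, zpow_natCast, ← end_seq, ← hN]
  rfl

theorem Rec.zero {P : ℤ_[p][X]} {u : ℤ → ℤ_[p]} (h : Rec P u) (hP : P.Monic)
    (hPp : P.natDegree < p) (hpos : 0 < P.natDegree) (Z : Finset ℤ) (hZ : ∀ t ∈ Z, u t = 0)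
    (hc : P.natDegree ≤ Z.card) (t : ℤ) : u t = 0 := by
  classical
  have hne : Z.Nonempty := by
    rw [← Finset.card_pos]; omega
  set t0 := min (Z.min' hne) t with ht0
  obtain ⟨b, h3, h4⟩ := h t0
  have hle : ∀ z ∈ Z, t0 ≤ z := fun z hz => (min_le_left _ _).trans (Finset.min'_le _ _ hz)
  have hb : b = 0 := by
    refine zero_of_card b P hP hPp h3 (Z.image (fun z => (z - t0).toNat)) ?_ ?_
    · intro m hm
      rw [Finset.mem_image] at hm
      obtain ⟨z, hz, rfl⟩ := hm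
      rw [← h4]
      have h5 : t0 + (((z - t0).toNat : ℕ) : ℤ) = z := by
        rw [Int.toNat_of_nonneg (by have := hle z hz; omega)]
        ring
      rw [h5]
      exact hZ z hz
    · rw [Finset.card_image_of_injOn]
      · exact hc
      · intro x hx y hy hxy
        have e1 := hle x hx
        have e2 := hle y hy
        simp only at hxy
        omega
  have h5 := h4 (t - t0).toNat
  have h6 : t0 + (((t - t0).toNat : ℕ) : ℤ) = t := by
    rw [Int.toNat_of_nonneg (by have := min_le_right (Z.min' hne) t; omega)]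
    ring
  rw [h6, hb] at h5
  rw [h5]
  simp [ser]

/-! ### products -/

/-- an annihilated sequence as a sequence of values of powers of the root -/
theorem realize (P : ℤ_[p][X]) (hP : P.Monic) (b : ℕ → ℤ_[p]) (h : Ann P b) (k : ℕ) :
    ((phi b) ∘ₗ AdjoinRoot.modByMonicHom hP) ((AdjoinRoot.root P) ^ k) = b k := by
  have h1 : (AdjoinRoot.root P) ^ k = AdjoinRoot.mk P (X ^ k) := by
    rw [map_pow, AdjoinRoot.mk_X]
  rw [h1, LinearMap.comp_apply, AdjoinRoot.modByMonicHom_mk, ← phi_X_pow b k]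
  conv_rhs => rw [← Polynomial.modByMonic_add_div (X ^ k) P, map_add, h, add_zero]

/-- the operator for products -/
noncomputable def prodOp (P P' : ℤ_[p][X]) :
    Module.End ℤ_[p] (AdjoinRoot P ⊗[ℤ_[p]] AdjoinRoot P') :=
  TensorProduct.map (Algebra.lmul ℤ_[p] _ (AdjoinRoot.root P)) LinearMap.id +
    TensorProduct.map LinearMap.id (Algebra.lmul ℤ_[p] _ (AdjoinRoot.root P')) +
    (p : ℤ_[p]) • TensorProduct.map (Algebra.lmul ℤ_[p] _ (AdjoinRoot.root P))
      (Algebra.lmul ℤ_[p] _ (AdjoinRoot.root P'))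

theorem one_add_prodOp (P P' : ℤ_[p][X]) : 1 + (p : ℤ_[p]) • prodOp P P' =
    TensorProduct.map (1 + (p : ℤ_[p]) • Algebra.lmul ℤ_[p] _ (AdjoinRoot.root P))
      (1 + (p : ℤ_[p]) • Algebra.lmul ℤ_[p] _ (AdjoinRoot.root P')) := by
  unfold prodOp
  rw [TensorProduct.map_add_left, TensorProduct.map_add_right, TensorProduct.map_add_right,
    TensorProduct.map_smul_left, TensorProduct.map_smul_right, TensorProduct.map_smul_left,
    TensorProduct.map_smul_right]
  have h1 : TensorProduct.map (1 : Module.End ℤ_[p] (AdjoinRoot P))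
      (1 : Module.End ℤ_[p] (AdjoinRoot P')) = 1 := TensorProduct.map_id
  rw [h1]
  simp only [smul_add, smul_smul]
  show _ = 1 + (p : ℤ_[p]) • TensorProduct.map LinearMap.id (Algebra.lmul ℤ_[p] _
    (AdjoinRoot.root P')) + (_ • TensorProduct.map _ LinearMap.id + _)
  abel

theorem pow_prodOp (P P' : ℤ_[p][X]) (x : AdjoinRoot P) (y : AdjoinRoot P') (t : ℕ) :
    ((1 + (p : ℤ_[p]) • prodOp P P') ^ t) (x ⊗ₜ y) =
      (((1 + (p : ℤ_[p]) • Algebra.lmul ℤ_[p] _ (AdjoinRoot.root P)) ^ t) x) ⊗ₜ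
        (((1 + (p : ℤ_[p]) • Algebra.lmul ℤ_[p] _ (AdjoinRoot.root P')) ^ t) y) := by
  induction t with
  | zero => rfl
  | succ t ih =>
    rw [pow_succ', Module.End.mul_apply, ih, one_add_prodOp, TensorProduct.map_tmul, pow_succ',
      pow_succ', Module.End.mul_apply, Module.End.mul_apply]

theorem Rec.mul (P P' : ℤ_[p][X]) (hP : P.Monic) (hP' : P'.Monic) : ∃ Q : ℤ_[p][X], Q.Monic ∧
    Q.natDegree = P.natDegree * P'.natDegree ∧ ∀ u u' : ℤ → ℤ_[p], Rec P u → Rec P' u' →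
      Rec Q (u * u') := by
  have f1 : Module.Free ℤ_[p] (AdjoinRoot P) := Module.Free.of_basis (AdjoinRoot.powerBasis' hP).basis
  have f2 : Module.Free ℤ_[p] (AdjoinRoot P') :=
    Module.Free.of_basis (AdjoinRoot.powerBasis' hP').basis
  have g1 : Module.Finite ℤ_[p] (AdjoinRoot P) := (AdjoinRoot.powerBasis' hP).finite
  have g2 : Module.Finite ℤ_[p] (AdjoinRoot P') := (AdjoinRoot.powerBasis' hP').finite
  refine ⟨(prodOp P P').charpoly, LinearMap.charpoly_monic _, ?_, fun u u' h h' s => ?_⟩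
  · rw [LinearMap.charpoly_natDegree, Module.finrank_tensorProduct,
      (AdjoinRoot.powerBasis' hP).finrank, (AdjoinRoot.powerBasis' hP').finrank,
      AdjoinRoot.powerBasis'_dim, AdjoinRoot.powerBasis'_dim]
  · obtain ⟨b, h1, h2⟩ := h s
    obtain ⟨b', h1', h2'⟩ := h' s
    set l := (phi b) ∘ₗ AdjoinRoot.modByMonicHom hP with hl
    set l' := (phi b') ∘ₗ AdjoinRoot.modByMonicHom hP' with hl'
    let L : AdjoinRoot P ⊗[ℤ_[p]] AdjoinRoot P' →ₗ[ℤ_[p]] ℤ_[p] :=
      LinearMap.mul' ℤ_[p] ℤ_[p] ∘ₗ TensorProduct.map l l'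
    refine ⟨fun k => L ((prodOp P P' ^ k) (1 ⊗ₜ 1)), end_ann _ L _ _
      (LinearMap.aeval_self_charpoly _), fun t => ?_⟩
    rw [← end_seq, pow_prodOp]
    show u (s + t) * u' (s + t) = l _ * l' _
    rw [h2, h2', end_seq, end_seq]
    have e1 : ∀ k, l (((Algebra.lmul ℤ_[p] (AdjoinRoot P) (AdjoinRoot.root P)) ^ k) 1) = b k := by
      intro k
      rw [← map_pow]
      show l (AdjoinRoot.root P ^ k * 1) = _
      rw [mul_one]
      exact realize P hP b h1 k
    have e2 : ∀ k, l' (((Algebra.lmul ℤ_[p] (AdjoinRoot P') (AdjoinRoot.root P')) ^ k) 1) =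
        b' k := by
      intro k
      rw [← map_pow]
      show l' (AdjoinRoot.root P' ^ k * 1) = _
      rw [mul_one]
      exact realize P' hP' b' h1' k
    simp only [e1, e2]

/-! ### orders -/

/-- `u` is annihilated by a monic polynomial of degree at most `D` -/
def RecD (D : ℕ) (u : ℤ → ℤ_[p]) : Prop := ∃ P : ℤ_[p][X], P.Monic ∧ P.natDegree ≤ D ∧ Rec P u

theorem RecD.add {D D' : ℕ} {u u' : ℤ → ℤ_[p]} (h : RecD D u) (h' : RecD D' u') :
    RecD (D + D') (u + u') := by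
  obtain ⟨P, h1, h2, h3⟩ := h
  obtain ⟨P', h1', h2', h3'⟩ := h'
  refine ⟨P * P', h1.mul h1', ?_, h3.add h3'⟩
  rw [h1.natDegree_mul h1']
  omega

theorem RecD.smul {D : ℕ} {u : ℤ → ℤ_[p]} (h : RecD D u) (c : ℤ_[p]) : RecD D (c • u) := by
  obtain ⟨P, h1, h2, h3⟩ := h
  exact ⟨P, h1, h2, h3.smul c⟩

theorem RecD.mono {D D' : ℕ} {u : ℤ → ℤ_[p]} (h : RecD D u) (hD : D ≤ D') : RecD D' u := by
  obtain ⟨P, h1, h2, h3⟩ := h
  exact ⟨P, h1, h2.trans hD, h3⟩

theorem RecD.mul {D D' : ℕ} {u u' : ℤ → ℤ_[p]} (h : RecD D u) (h' : RecD D' u') :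
    RecD (D * D') (u * u') := by
  obtain ⟨P, h1, h2, h3⟩ := h
  obtain ⟨P', h1', h2', h3'⟩ := h'
  obtain ⟨Q, q1, q2, q3⟩ := Rec.mul P P' h1 h1'
  exact ⟨Q, q1, by rw [q2]; exact Nat.mul_le_mul h2 h2', q3 u u' h3 h3'⟩

theorem RecD.one : RecD 1 (1 : ℤ → ℤ_[p]) :=
  ⟨X, monic_X, by rw [natDegree_X], Rec.const 1⟩

theorem RecD.zero' : RecD 0 (0 : ℤ → ℤ_[p]) := by
  refine ⟨1, monic_one, by rw [natDegree_one], fun s => ⟨0, fun Q => ?_, fun t => ?_⟩⟩
  · induction (1 * Q : ℤ_[p][X]) using Polynomial.induction_on' with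
    | add P Q hP hQ => rw [map_add, hP, hQ, add_zero]
    | monomial n a => rw [phi_monomial, Pi.zero_apply, mul_zero]
  · simp [ser]

theorem RecD.pow {D : ℕ} {u : ℤ → ℤ_[p]} (h : RecD D u) (k : ℕ) : RecD (D ^ k) (u ^ k) := by
  induction k with
  | zero => rw [pow_zero, pow_zero]; exact RecD.one
  | succ k ih => rw [pow_succ, pow_succ]; exact ih.mul h

theorem RecD.prod {ι : Type*} (s : Finset ι) (D : ι → ℕ) (u : ι → ℤ → ℤ_[p])
    (h : ∀ i ∈ s, RecD (D i) (u i)) : RecD (∏ i ∈ s, D i) (∏ i ∈ s, u i) := by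
  classical
  induction s using Finset.induction_on with
  | empty => rw [Finset.prod_empty, Finset.prod_empty]; exact RecD.one
  | insert a s ha ih =>
    rw [Finset.prod_insert ha, Finset.prod_insert ha]
    exact (h a (Finset.mem_insert_self _ _)).mul
      (ih fun i hi => h i (Finset.mem_insert_of_mem hi))

theorem RecD.sum {ι : Type*} (s : Finset ι) (D : ι → ℕ) (u : ι → ℤ → ℤ_[p])
    (h : ∀ i ∈ s, RecD (D i) (u i)) : RecD (∑ i ∈ s, D i) (∑ i ∈ s, u i) := by
  classical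
  induction s using Finset.induction_on with
  | empty => rw [Finset.sum_empty, Finset.sum_empty]; exact RecD.zero'
  | insert a s ha ih =>
    rw [Finset.sum_insert ha, Finset.sum_insert ha]
    exact (h a (Finset.mem_insert_self _ _)).add
      (ih fun i hi => h i (Finset.mem_insert_of_mem hi))

theorem RecD.eq_zero {D : ℕ} {u : ℤ → ℤ_[p]} (h : RecD D u) (hDp : D < p) (Z : Finset ℤ)
    (hZ : ∀ t ∈ Z, u t = 0) (hc : D ≤ Z.card) (t : ℤ) : u t = 0 := by
  obtain ⟨P, h1, h2, h3⟩ := h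
  rcases Nat.eq_zero_or_pos P.natDegree with h0 | h0
  · have hP1 : P = 1 := Polynomial.eq_one_of_monic_natDegree_zero h1 h0
    obtain ⟨b, hb, hb'⟩ := h3 t
    have h5 := hb' 0
    rw [Nat.cast_zero, add_zero] at h5
    have h6 : b 0 = 0 := by
      have := hb (X ^ 0)
      rw [hP1, one_mul, phi_X_pow] at this
      exact this
    rw [h5]
    simp [ser, h6]
  · exact h3.zero h1 (by omega) h0 Z hZ (h2.trans hc) t

end Q99.SML6
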